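import Pool.Agent.H82.NTC.Pot

/-!
# Board `ntc`, row PMJ1: potentials for the men of kind `J1`
-/

set_option autoImplicit false

namespace Pool.NTC

open Pool.NET

theorem pmj1_pr (p : Par) (e g : ℤ) (h u : Nd → Prop) (v : Nd) :
    prM p e g h u (v, Ke.J1) = 4 * (p.S * v.1) + 2 * p.M + 2 * e - 6 * p.q + 1 := by
  by_cases hu : u v
  · simp only [prM, nx2, hu, if_true, fx]
    ring
  · simp only [prM, nx2, hu, if_false, fx]
    ring

theorem pmj1_col (S c c' : ℤ) (hS : 0 ≤ S) :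
    S * c' = S * c ∨ S * c + S ≤ S * c' ∨ S * c' + S ≤ S * c := by
  rcases lt_trichotomy c c' with h | h | h
  · right
    left
    nlinarith [mul_le_mul_of_nonneg_left (show c + 1 ≤ c' by omega) hS]
  · left
    rw [h]
  · right
    right
    nlinarith [mul_le_mul_of_nonneg_left (show c' + 1 ≤ c by omega) hS]

/-- **PMJ1**. -/
theorem pmj1_thm : PMk Ke.J1 := by
  intro p e g e' g' h u h1 h2 _ v w s t hs0 hs ht0 ht hlt
  obtain ⟨hq, hg1, hg2, hW, hM, hS⟩ := h1
  obtain ⟨-, hg1', hg2', hW', hM', -⟩ := h2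
  obtain ⟨w, k⟩ := w
  rw [pmj1_pr] at hlt
  have hc := pmj1_col p.S v.1 w.1 (by omega)
  have hJ : |4 * (p.S * v.1) + 2 * p.M + 2 * e - 6 * p.q + 1 -
      4 * (p.S * v.1 + p.M - 5 * p.q + t)| =
      2 * p.M - 2 * e - 14 * p.q + 4 * t - 1 := by
    rw [abs_of_nonpos (by omega)]
    ring
  cases k <;> simp only [lvM, sgM, fx] at hlt ⊢ <;>
    rw [hJ, abs_lt] at hlt <;> try omega
  exact Or.inr ⟨trivial, by omega⟩

end Pool.NTC
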